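import Mathlib

/-!
# Strictly monotone maps into the integers: criterion, countable times less than b, modular
-/

namespace Pool.Agent.SMZ

open Cardinal

universe u

/-- The poset `P` is locally chain-bounded: for all `x ≤ y` there is a finite bound for the number
of elements of the chains contained in the interval `[x, y]`. -/
def LocChainBdd (P : Type*) [PartialOrder P] : Prop :=
  ∀ x y : P, x ≤ y → ∃ n : ℕ, ∀ c : Set P, c ⊆ Set.Icc x y → IsChain (· ≤ ·) c → c.encard ≤ n

/-- There is a strictly monotone map from `P` into the chain of integers. -/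
def HasIntMap (P : Type*) [PartialOrder P] : Prop :=
  ∃ f : P → ℤ, StrictMono f

/-- The bounding number (in the universe `u`): the least cardinality of a family of functions
`ℕ → ℕ` which is not bounded modulo finite sets by one function. -/
noncomputable def bnum : Cardinal.{u} :=
  sInf {c | ∃ (I : Type u) (φ : I → ℕ → ℕ), Cardinal.mk I = c ∧
    ¬ ∃ g : ℕ → ℕ, ∀ i, ∀ᶠ n in Filter.atTop, φ i n ≤ g n}

theorem bnum_set_nonempty : {c : Cardinal.{u} | ∃ (I : Type u) (φ : I → ℕ → ℕ),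
    Cardinal.mk I = c ∧ ¬ ∃ g : ℕ → ℕ, ∀ i, ∀ᶠ n in Filter.atTop, φ i n ≤ g n}.Nonempty := by
  refine ⟨_, ULift.{u} (ℕ → ℕ), ULift.down, rfl, ?_⟩
  rintro ⟨g, hg⟩
  have h := hg ⟨fun n => g n + 1⟩
  obtain ⟨n, hn⟩ := h.exists
  simp at hn

theorem exists_unbounded : ∃ (I : Type u) (φ : I → ℕ → ℕ), Cardinal.mk I = bnum.{u} ∧
    ¬ ∃ g : ℕ → ℕ, ∀ i, ∀ᶠ n in Filter.atTop, φ i n ≤ g n :=
  csInf_mem bnum_set_nonempty

theorem bounded_of_lt {I : Type u} (h : Cardinal.mk I < bnum.{u}) (φ : I → ℕ → ℕ) :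
    ∃ g : ℕ → ℕ, ∀ i, ∀ᶠ n in Filter.atTop, φ i n ≤ g n := by
  by_contra hc
  have h2 : bnum.{u} ≤ Cardinal.mk I := csInf_le' ⟨I, φ, rfl, hc⟩
  exact absurd h2 (not_le.2 h)

/-- The criterion. -/
theorem hasIntMap_of_bound {P : Type*} [PartialOrder P] (h : P → ℕ)
    (hb : ∀ x y : P, x ≤ y → ∀ s : Finset P, (∀ u ∈ s, x ≤ u ∧ u ≤ y) →
      IsChain (· ≤ ·) (s : Set P) → s.card ≤ h x + h y) : HasIntMap P := by
  classical
  let S : P → Set ℤ := fun x => {k | ∃ z, z ≤ x ∧ ∃ s : Finset P, (∀ u ∈ s, z ≤ u ∧ u ≤ x) ∧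
    IsChain (· ≤ ·) (s : Set P) ∧ k = (s.card : ℤ) - h z}
  have hne : ∀ x, (S x).Nonempty := fun x => ⟨_, x, le_rfl, ∅, by simp, by simp, rfl⟩
  have hbd : ∀ x, BddAbove (S x) := by
    intro x
    refine ⟨h x, ?_⟩
    rintro k ⟨z, hz, s, hs, hc, rfl⟩
    have := hb z x hz s hs hc
    have h2 : (s.card : ℤ) ≤ h z + h x := by exact_mod_cast this
    linarith
  refine ⟨fun x => sSup (S x), ?_⟩
  intro x y hxy
  obtain ⟨z, hz, s, hs, hc, hk⟩ := Int.csSup_mem (hne x) (hbd x)
  have hy : y ∉ s := fun hmem => absurd (hs y hmem).2 (not_le_of_gt hxy)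
  have hmem : sSup (S x) + 1 ∈ S y := by
    refine ⟨z, hz.trans hxy.le, insert y s, ?_, ?_, ?_⟩
    · intro u hu
      rcases Finset.mem_insert.1 hu with rfl | hu
      · exact ⟨hz.trans hxy.le, le_rfl⟩
      · exact ⟨(hs u hu).1, (hs u hu).2.trans hxy.le⟩
    · rw [Finset.coe_insert]
      refine hc.insert ?_
      intro b hb' _
      exact Or.inr ((hs b hb').2.trans hxy.le)
    · rw [Finset.card_insert_of_notMem hy, hk]
      push_cast
      ring
  have := le_csSup (hbd y) hmem
  show sSup (S x) < sSup (S y)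
  linarith

theorem LocChainBdd.finset {P : Type*} [PartialOrder P] (hP : LocChainBdd P) (x y : P) :
    ∃ n : ℕ, ∀ s : Finset P, (∀ u ∈ s, x ≤ u ∧ u ≤ y) → IsChain (· ≤ ·) (s : Set P) →
      s.card ≤ n := by
  by_cases hxy : x ≤ y
  · obtain ⟨n, hn⟩ := hP x y hxy
    refine ⟨n, fun s hs hc => ?_⟩
    have := hn s (fun u hu => hs u hu) hc
    rw [Set.encard_coe_eq_coe_finsetCard] at this
    exact_mod_cast this
  · refine ⟨0, fun s hs _ => ?_⟩
    rcases s.eq_empty_or_nonempty with rfl | ⟨u, hu⟩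
    · simp
    · exact absurd ((hs u hu).1.trans (hs u hu).2) hxy

theorem matrix_aux {A B : Type u} (hA : Cardinal.mk A ≤ ℵ₀) (hB : Cardinal.mk B < bnum.{u})
    (N : A → B → ℕ) : ∃ (g : A → ℕ) (h : B → ℕ), ∀ a b, N a b ≤ g a + h b := by
  classical
  rcases isEmpty_or_nonempty A with hE | hne
  · exact ⟨fun _ => 0, fun _ => 0, fun a => (hE.false a).elim⟩
  have hc : Countable A := Cardinal.mk_le_aleph0_iff.1 hA
  obtain ⟨enc, henc⟩ := exists_injective_nat A
  obtain ⟨g, hg⟩ := bounded_of_lt hB (fun b k => N (Function.invFun enc k) b)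
  have hK : ∀ b, ∃ K : ℕ, ∀ k, K ≤ k → N (Function.invFun enc k) b ≤ g k := fun b =>
    Filter.eventually_atTop.1 (hg b)
  choose K hK using hK
  refine ⟨fun a => g (enc a), fun b => ∑ k ∈ Finset.range (K b), N (Function.invFun enc k) b, ?_⟩
  intro a b
  show N a b ≤ g (enc a) + ∑ k ∈ Finset.range (K b), N (Function.invFun enc k) b
  have hinv : Function.invFun enc (enc a) = a := Function.leftInverse_invFun henc a
  by_cases hlt : enc a < K b
  · have := Finset.single_le_sum (f := fun k => N (Function.invFun enc k) b)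
      (fun i _ => Nat.zero_le _) (Finset.mem_range.2 hlt)
    simp only [hinv] at this
    omega
  · have := hK b (enc a) (not_lt.1 hlt)
    rw [hinv] at this
    omega

theorem matrix_bound {A B : Type u}
    (hAB : (Cardinal.mk A ≤ ℵ₀ ∧ Cardinal.mk B < bnum.{u}) ∨
      (Cardinal.mk B ≤ ℵ₀ ∧ Cardinal.mk A < bnum.{u}))
    (N : A → B → ℕ) : ∃ (g : A → ℕ) (h : B → ℕ), ∀ a b, N a b ≤ g a + h b := by
  rcases hAB with ⟨h1, h2⟩ | ⟨h1, h2⟩
  · exact matrix_aux h1 h2 N
  · obtain ⟨g, h, hgh⟩ := matrix_aux h1 h2 (fun b a => N a b)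
    exact ⟨h, g, fun a b => by have := hgh b a; omega⟩

/-- Positive part 1: all posets with a countable coinitial and a cofinal set of size less than the
bounding number, or the other way round. -/
theorem hasIntMap_of_cofinal {P : Type u} [PartialOrder P] (hP : LocChainBdd P)
    (D E : Set P) (hD : ∀ x, ∃ d ∈ D, d ≤ x) (hE : ∀ x, ∃ e ∈ E, x ≤ e)
    (hAB : (Cardinal.mk D ≤ ℵ₀ ∧ Cardinal.mk E < bnum.{u}) ∨
      (Cardinal.mk E ≤ ℵ₀ ∧ Cardinal.mk D < bnum.{u})) : HasIntMap P := by
  classical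
  choose N hN using fun (d : D) (e : E) => hP.finset (d : P) (e : P)
  obtain ⟨g, h, hgh⟩ := matrix_bound hAB N
  choose ds hds hds' using hD
  choose es hes hes' using hE
  refine hasIntMap_of_bound (fun x => g ⟨ds x, hds x⟩ + h ⟨es x, hes x⟩) ?_
  intro x y _ s hs hc
  have h1 := hN ⟨ds x, hds x⟩ ⟨es y, hes y⟩ s
    (fun u hu => ⟨(hds' x).trans (hs u hu).1, (hs u hu).2.trans (hes' y)⟩) hc
  have h2 := hgh ⟨ds x, hds x⟩ ⟨es y, hes y⟩
  show s.card ≤ (g ⟨ds x, hds x⟩ + h ⟨es x, hes x⟩) + (g ⟨ds y, hds y⟩ + h ⟨es y, hes y⟩)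
  omega

/-- In a modular lattice a chain has at most as many elements as its two projections together. -/
theorem modular_card {L : Type*} [Lattice L] [IsModularLattice L] [DecidableEq L] (o : L)
    (s : Finset L) (hc : IsChain (· ≤ ·) (s : Set L)) :
    s.card ≤ (s.image (· ⊓ o)).card + (s.image (· ⊔ o)).card := by
  classical
  induction s using Finset.strongInduction with
  | _ s ih =>
    rcases s.eq_empty_or_nonempty with rfl | hne
    · simp
    obtain ⟨m, hm⟩ := s.exists_maximal hne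
    have hms : m ∈ s := hm.1
    have hmax : ∀ u ∈ s, u ≤ m := by
      intro u hu
      rcases eq_or_ne u m with rfl | hne'
      · exact le_rfl
      rcases hc hu hms hne' with h | h
      · exact h
      · exact hm.2 hu h
    set s' := s.erase m with hs'
    have hss : s' ⊂ s := Finset.erase_ssubset hms
    have hc' : IsChain (· ≤ ·) (s' : Set L) := hc.mono (by
      intro u hu
      exact Finset.mem_of_mem_erase hu)
    have h1 := ih s' hss hc'
    have hcard : s.card = s'.card + 1 := by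
      rw [hs', Finset.card_erase_add_one hms]
    have hins : s = insert m s' := (Finset.insert_erase hms).symm
    have hsub1 : (s'.image (· ⊓ o)) ⊆ s.image (· ⊓ o) := Finset.image_subset_image hss.subset
    have hsub2 : (s'.image (· ⊔ o)) ⊆ s.image (· ⊔ o) := Finset.image_subset_image hss.subset
    have key : m ⊓ o ∉ s'.image (· ⊓ o) ∨ m ⊔ o ∉ s'.image (· ⊔ o) := by
      by_contra hcon
      push Not at hcon
      obtain ⟨h2, h3⟩ := hcon
      obtain ⟨v, hv, hv'⟩ := Finset.mem_image.1 h2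
      obtain ⟨w, hw, hw'⟩ := Finset.mem_image.1 h3
      have hvs := Finset.mem_of_mem_erase hv
      have hws := Finset.mem_of_mem_erase hw
      obtain ⟨t, ht, hvt, hwt⟩ : ∃ t ∈ s', v ≤ t ∧ w ≤ t := by
        rcases eq_or_ne v w with rfl | hvw
        · exact ⟨v, hv, le_rfl, le_rfl⟩
        rcases hc hvs hws hvw with h | h
        · exact ⟨w, hw, h, le_rfl⟩
        · exact ⟨v, hv, le_rfl, h⟩
      have htm : t ≤ m := hmax t (Finset.mem_of_mem_erase ht)
      have e1 : m ⊓ o ≤ t ⊓ o := by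
        rw [← hv']
        exact inf_le_inf_right _ hvt
      have e2 : m ⊔ o ≤ t ⊔ o := by
        rw [← hw']
        exact sup_le_sup_right hwt _
      have := eq_of_le_of_inf_le_of_sup_le htm e1 e2
      exact (Finset.ne_of_mem_erase ht) this
    rcases key with hk | hk
    · have : (s'.image (· ⊓ o)).card < (s.image (· ⊓ o)).card := by
        refine Finset.card_lt_card ⟨hsub1, fun hh => hk (hh ?_)⟩
        exact Finset.mem_image.2 ⟨m, hms, rfl⟩
      have := Finset.card_le_card hsub2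
      omega
    · have : (s'.image (· ⊔ o)).card < (s.image (· ⊔ o)).card := by
        refine Finset.card_lt_card ⟨hsub2, fun hh => hk (hh ?_)⟩
        exact Finset.mem_image.2 ⟨m, hms, rfl⟩
      have := Finset.card_le_card hsub1
      omega

theorem chain_image {L : Type*} [PartialOrder L] {s : Set L} (hc : IsChain (· ≤ ·) s)
    {f : L → L} (hf : ∀ a b, a ≤ b → f a ≤ f b) : IsChain (· ≤ ·) (f '' s) := by
  rintro _ ⟨a, ha, rfl⟩ _ ⟨b, hb, rfl⟩ hne
  rcases hc ha hb (fun h => hne (by rw [h])) with h | h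
  · exact Or.inl (hf _ _ h)
  · exact Or.inr (hf _ _ h)

/-- Positive part 2: modular lattices. -/
theorem hasIntMap_of_modular {L : Type*} [Lattice L] [IsModularLattice L] (hL : LocChainBdd L) :
    HasIntMap L := by
  classical
  rcases isEmpty_or_nonempty L with hE | ⟨⟨o⟩⟩
  · exact ⟨fun _ => 0, fun x => (hE.false x).elim⟩
  choose N hN using hL.finset
  refine hasIntMap_of_bound (fun x => N (x ⊓ o) o + N o (x ⊔ o)) ?_
  intro x y _ s hs hc
  have h0 := modular_card o s hc
  have hchain1 : IsChain (· ≤ ·) ((s.image (· ⊓ o) : Finset L) : Set L) := by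
    rw [Finset.coe_image]
    exact chain_image hc (fun a b h => inf_le_inf_right _ h)
  have hchain2 : IsChain (· ≤ ·) ((s.image (· ⊔ o) : Finset L) : Set L) := by
    rw [Finset.coe_image]
    exact chain_image hc (fun a b h => sup_le_sup_right h _)
  have h1 := hN (x ⊓ o) o (s.image (· ⊓ o)) (by
    intro u hu
    obtain ⟨v, hv, rfl⟩ := Finset.mem_image.1 hu
    exact ⟨inf_le_inf_right _ (hs v hv).1, inf_le_right⟩) hchain1
  have h2 := hN o (y ⊔ o) (s.image (· ⊔ o)) (by
    intro u hu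
    obtain ⟨v, hv, rfl⟩ := Finset.mem_image.1 hu
    exact ⟨le_sup_right, sup_le_sup_right (hs v hv).2 _⟩) hchain2
  show s.card ≤ (N (x ⊓ o) o + N o (x ⊔ o)) + (N (y ⊓ o) o + N o (y ⊔ o))
  omega

end Pool.Agent.SMZ
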