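import Pool.Agent.Helper93_SMZ.Pent
import Pool.Agent.Helper5_DF7.Bad

/-!
# Classification: modular classes, coinitiality, cofinality and the bounding number
-/

namespace Pool.Agent.SMZ

open Cardinal

universe u

/-- The class `K` of lattices is closed under sublattices of powers: every lattice which embeds
into a direct power of a member of `K` belongs to `K`. -/
def PowerClosed (K : (α : Type u) → [Lattice α] → Prop) : Prop :=
  ∀ (α β ι : Type u) [Lattice α] [Lattice β], K β →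
    ∀ φ : LatticeHom α (ι → β), Function.Injective φ → K α

/-- The coinitiality of `P`: the least cardinality of a coinitial subset. -/
noncomputable def coinit (P : Type u) [PartialOrder P] : Cardinal.{u} :=
  sInf {c | ∃ D : Set P, Cardinal.mk D = c ∧ ∀ x, ∃ d ∈ D, d ≤ x}

/-- The cofinality of `P`: the least cardinality of a cofinal subset. -/
noncomputable def cofin (P : Type u) [PartialOrder P] : Cardinal.{u} :=
  sInf {c | ∃ E : Set P, Cardinal.mk E = c ∧ ∀ x, ∃ e ∈ E, x ≤ e}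

/-- The good pairs of cardinals: one is finite, or one is `ℵ₀` and the other one is less than the
bounding number. -/
def GoodPair (κ μ : Cardinal.{u}) : Prop :=
  κ < ℵ₀ ∨ μ < ℵ₀ ∨ (κ = ℵ₀ ∧ μ < bnum.{u}) ∨ (μ = ℵ₀ ∧ κ < bnum.{u})

theorem coinit_spec (P : Type u) [PartialOrder P] :
    ∃ D : Set P, Cardinal.mk D = coinit P ∧ ∀ x, ∃ d ∈ D, d ≤ x :=
  csInf_mem (s := {c | ∃ D : Set P, Cardinal.mk D = c ∧ ∀ x, ∃ d ∈ D, d ≤ x})
    ⟨_, Set.univ, rfl, fun x => ⟨x, trivial, le_rfl⟩⟩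

theorem cofin_spec (P : Type u) [PartialOrder P] :
    ∃ E : Set P, Cardinal.mk E = cofin P ∧ ∀ x, ∃ e ∈ E, x ≤ e :=
  csInf_mem (s := {c | ∃ E : Set P, Cardinal.mk E = c ∧ ∀ x, ∃ e ∈ E, x ≤ e})
    ⟨_, Set.univ, rfl, fun x => ⟨x, trivial, le_rfl⟩⟩

theorem matrix_finite {A B : Type u} (hA : Cardinal.mk A < ℵ₀) (N : A → B → ℕ) :
    ∃ (g : A → ℕ) (h : B → ℕ), ∀ a b, N a b ≤ g a + h b := by
  have : Finite A := Cardinal.lt_aleph0_iff_finite.1 hA
  have := Fintype.ofFinite A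
  refine ⟨fun _ => 0, fun b => ∑ a, N a b, fun a b => ?_⟩
  have h1 := Finset.single_le_sum (f := fun a => N a b) (fun i _ => Nat.zero_le _)
    (Finset.mem_univ a)
  show N a b ≤ 0 + ∑ a, N a b
  omega

theorem matrix_good {A B : Type u} (h : GoodPair (Cardinal.mk A) (Cardinal.mk B))
    (N : A → B → ℕ) : ∃ (g : A → ℕ) (h : B → ℕ), ∀ a b, N a b ≤ g a + h b := by
  rcases h with h | h | ⟨h1, h2⟩ | ⟨h1, h2⟩
  · exact matrix_finite h N
  · obtain ⟨g, h, hgh⟩ := matrix_finite h (fun b a => N a b)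
    exact ⟨h, g, fun a b => by have := hgh b a; omega⟩
  · exact matrix_bound (Or.inl ⟨h1.le, h2⟩) N
  · exact matrix_bound (Or.inr ⟨h1.le, h2⟩) N

theorem pos_cardinals (P : Type u) [PartialOrder P] (hP : LocChainBdd P)
    (h : GoodPair (coinit P) (cofin P)) : HasIntMap P := by
  classical
  obtain ⟨D, hD, hD2⟩ := coinit_spec P
  obtain ⟨E, hE, hE2⟩ := cofin_spec P
  choose N hN using fun (d : D) (e : E) => hP.finset (d : P) (e : P)
  rw [← hD, ← hE] at h
  obtain ⟨g, h, hgh⟩ := matrix_good h N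
  choose ds hds hds' using hD2
  choose es hes hes' using hE2
  refine hasIntMap_of_bound (fun x => g ⟨ds x, hds x⟩ + h ⟨es x, hes x⟩) ?_
  intro x y _ s hs hc
  have h1 := hN ⟨ds x, hds x⟩ ⟨es y, hes y⟩ s
    (fun u hu => ⟨(hds' x).trans (hs u hu).1, (hs u hu).2.trans (hes' y)⟩) hc
  have h2 := hgh ⟨ds x, hds x⟩ ⟨es y, hes y⟩
  show s.card ≤ (g ⟨ds x, hds x⟩ + h ⟨es x, hes x⟩) + (g ⟨ds y, hds y⟩ + h ⟨es y, hes y⟩)
  omega

theorem cover_le {I X : Type u} [Infinite X] (G : I → Finset X) (h : ∀ x, ∃ i, x ∈ G i) :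
    Cardinal.mk X ≤ Cardinal.mk I := by
  have h1 : Function.Surjective (fun t : Σ i : I, G i => (t.2 : X)) := by
    intro x
    obtain ⟨i, hi⟩ := h x
    exact ⟨⟨i, x, hi⟩, rfl⟩
  have h2 := Cardinal.mk_le_of_surjective h1
  rcases lt_or_ge (Cardinal.mk I) ℵ₀ with hI | hI
  · have : Finite I := Cardinal.lt_aleph0_iff_finite.1 hI
    have : Finite X := Finite.of_surjective _ h1
    exact absurd ‹Infinite X› (not_infinite_iff_finite.2 this)
  · refine h2.trans ?_
    rw [Cardinal.mk_sigma]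
    refine (Cardinal.sum_le_sum _ (fun _ => ℵ₀) (fun i => (Cardinal.mk_le_aleph0))).trans ?_
    rw [Cardinal.sum_const']
    exact (Cardinal.mul_aleph0_eq hI).le

section Size

variable {M : Type u} [Lattice M] (p : Pent M) {X Y : Type u} (n : X → Y → ℕ)

theorem coinit_le {P : Type u} [PartialOrder P] (D : Set P) (h : ∀ x, ∃ d ∈ D, d ≤ x) :
    coinit P ≤ Cardinal.mk D :=
  csInf_le' (s := {c | ∃ D : Set P, Cardinal.mk D = c ∧ ∀ x, ∃ d ∈ D, d ≤ x}) ⟨D, rfl, h⟩

theorem cofin_le {P : Type u} [PartialOrder P] (E : Set P) (h : ∀ x, ∃ e ∈ E, x ≤ e) :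
    cofin P ≤ Cardinal.mk E :=
  csInf_le' (s := {c | ∃ E : Set P, Cardinal.mk E = c ∧ ∀ x, ∃ e ∈ E, x ≤ e}) ⟨E, rfl, h⟩

theorem coinit_LL [Infinite X] [Infinite Y] : coinit (LL p n) = Cardinal.mk X := by
  apply le_antisymm
  · refine (coinit_le (Set.range (lowE p n)) (fun z => ?_)).trans ?_
    · obtain ⟨G, hG⟩ := exists_lowE_le p n z
      exact ⟨_, ⟨G, rfl⟩, hG⟩
    · refine Cardinal.mk_range_le.trans ?_
      rw [Cardinal.mk_finset_of_infinite]
  · obtain ⟨D, hD, hD2⟩ := coinit_spec (LL p n)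
    rw [← hD]
    have hz : ∀ z : D, ∃ G : Finset X, ∃ F : Finset Y, ∀ x y j,
        p.V (x ∈ G) (y ∈ F) (j < n x y) ((z : LL p n).1 (x, y, j)) := fun z => (z : LL p n).2
    choose G F hGF using hz
    refine cover_le G (fun x => ?_)
    obtain ⟨z, hz, hzx⟩ := hD2 (lowE p n {x})
    refine ⟨⟨z, hz⟩, ?_⟩
    by_contra hx
    obtain ⟨y, hy⟩ := Infinite.exists_notMem_finset (F ⟨z, hz⟩)
    have h1 := (hGF ⟨z, hz⟩ x y 0).eq_b p hx hy
    have h2 : z.1 (x, y, 0) ≤ valf p {x} ∅ ∅ (x, y, 0) := hzx (x, y, 0)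
    simp only at h1
    rw [h1] at h2
    simp only [valf, Finset.mem_singleton, Finset.notMem_empty, if_true, if_false] at h2
    exact p.not_b_le_o h2

theorem cofin_LL [Infinite X] [Infinite Y] : cofin (LL p n) = Cardinal.mk Y := by
  apply le_antisymm
  · refine (cofin_le (Set.range (upE p n)) (fun z => ?_)).trans ?_
    · obtain ⟨F, hF⟩ := exists_le_upE p n z
      exact ⟨_, ⟨F, rfl⟩, hF⟩
    · refine Cardinal.mk_range_le.trans ?_
      rw [Cardinal.mk_finset_of_infinite]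
  · obtain ⟨E, hE, hE2⟩ := cofin_spec (LL p n)
    rw [← hE]
    have hz : ∀ z : E, ∃ G : Finset X, ∃ F : Finset Y, ∀ x y j,
        p.V (x ∈ G) (y ∈ F) (j < n x y) ((z : LL p n).1 (x, y, j)) := fun z => (z : LL p n).2
    choose G F hGF using hz
    refine cover_le F (fun y => ?_)
    obtain ⟨z, hz, hzy⟩ := hE2 (upE p n {y})
    refine ⟨⟨z, hz⟩, ?_⟩
    by_contra hy
    obtain ⟨x, hx⟩ := Infinite.exists_notMem_finset (G ⟨z, hz⟩)
    have h1 := (hGF ⟨z, hz⟩ x y 0).eq_b p hx hy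
    have h2 : valf p ∅ {y} ∅ (x, y, 0) ≤ z.1 (x, y, 0) := hzy (x, y, 0)
    simp only at h1
    rw [h1] at h2
    simp only [valf, Finset.mem_singleton, Finset.notMem_empty, if_true, if_false] at h2
    exact p.not_t_le_b h2

theorem le_mk_LL_left [Infinite Y] : Cardinal.mk X ≤ Cardinal.mk (LL p n) := by
  classical
  refine Cardinal.mk_le_of_injective (f := fun x => lowE p n {x}) ?_
  intro x x' h
  by_contra hne
  obtain ⟨y⟩ : Nonempty Y := inferInstance
  have h1 := congrFun (congrArg Subtype.val h) (x, y, 0)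
  simp only [lowE, valf, Finset.mem_singleton, Finset.notMem_empty, if_true, if_false, hne] at h1
  exact p.not_b_le_o h1.ge

theorem le_mk_LL_right [Infinite X] : Cardinal.mk Y ≤ Cardinal.mk (LL p n) := by
  classical
  refine Cardinal.mk_le_of_injective (f := fun y => upE p n {y}) ?_
  intro y y' h
  by_contra hne
  obtain ⟨x⟩ : Nonempty X := inferInstance
  have h1 := congrFun (congrArg Subtype.val h) (x, y, 0)
  simp only [upE, valf, Finset.mem_singleton, Finset.notMem_empty, if_true, if_false, hne] at h1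
  exact p.not_t_le_b h1.le

theorem mk_LL [Infinite X] [Infinite Y] :
    Cardinal.mk (LL p n) = max (Cardinal.mk X) (Cardinal.mk Y) := by
  classical
  apply le_antisymm _ (max_le (le_mk_LL_left p n) (le_mk_LL_right p n))
  have hc : ℵ₀ ≤ max (Cardinal.mk X) (Cardinal.mk Y) :=
    (Cardinal.aleph0_le_mk X).trans (le_max_left _ _)
  have hX : Cardinal.mk X ≤ max (Cardinal.mk X) (Cardinal.mk Y) := le_max_left _ _
  have hY : Cardinal.mk Y ≤ max (Cardinal.mk X) (Cardinal.mk Y) := le_max_right _ _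
  have h1 : ∀ z : LL p n, ∃ t : Finset X × Finset Y × Finset (X × Y × ℕ),
      (z : X × Y × ℕ → M) = valf p t.1 t.2.1 t.2.2 := by
    intro z
    obtain ⟨G, F, hz⟩ := z.2
    obtain ⟨T, _, hT⟩ := eq_valf p n hz
    exact ⟨(G, F, T), hT⟩
  choose t ht using h1
  have hinj : Function.Injective t := by
    intro z w hzw
    apply Subtype.ext
    rw [ht z, ht w, hzw]
  refine (Cardinal.mk_le_of_injective hinj).trans ?_
  have h3 : Cardinal.mk (X × Y × ℕ) ≤ max (Cardinal.mk X) (Cardinal.mk Y) := by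
    simp only [Cardinal.mk_prod, Cardinal.lift_id, Cardinal.lift_uzero, Cardinal.mk_nat,
      Cardinal.lift_aleph0]
    exact Cardinal.mul_le_of_le hc hX (Cardinal.mul_le_of_le hc hY hc)
  have h4 : Cardinal.mk (Finset (X × Y × ℕ)) ≤ max (Cardinal.mk X) (Cardinal.mk Y) := by
    rw [Cardinal.mk_finset_of_infinite]
    exact h3
  have h5 : Cardinal.mk (Finset X) ≤ max (Cardinal.mk X) (Cardinal.mk Y) := by
    rw [Cardinal.mk_finset_of_infinite]
    exact hX
  have h6 : Cardinal.mk (Finset Y) ≤ max (Cardinal.mk X) (Cardinal.mk Y) := by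
    rw [Cardinal.mk_finset_of_infinite]
    exact hY
  simp only [Cardinal.mk_prod, Cardinal.lift_id]
  exact Cardinal.mul_le_of_le hc h5 (Cardinal.mul_le_of_le hc h6 h4)

end Size

/-- Transport of a bad function along embeddings. -/
theorem bad_transport {A B X Y : Type u} [Nonempty A] [Nonempty B] (i : A ↪ X) (j : B ↪ Y)
    (n : A → B → ℕ) (hn : ¬ ∃ (g : A → ℕ) (h : B → ℕ), ∀ x y, n x y ≤ g x + h y) :
    ∃ n' : X → Y → ℕ, ¬ ∃ (g : X → ℕ) (h : Y → ℕ), ∀ x y, n' x y ≤ g x + h y := by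
  refine ⟨fun x y => n (Function.invFun i x) (Function.invFun j y), ?_⟩
  rintro ⟨g, h, hgh⟩
  refine hn ⟨fun a => g (i a), fun b => h (j b), fun a b => ?_⟩
  have h1 := hgh (i a) (j b)
  beta_reduce at h1
  rw [Function.leftInverse_invFun i.injective a, Function.leftInverse_invFun j.injective b] at h1
  exact h1

theorem bad_pair (κ μ : Cardinal.{u}) (h : ¬ GoodPair κ μ) :
    ∃ (X Y : Type u) (n : X → Y → ℕ), Infinite X ∧ Infinite Y ∧ Cardinal.mk X = κ ∧
      Cardinal.mk Y = μ ∧ ¬ ∃ (g : X → ℕ) (h : Y → ℕ), ∀ x y, n x y ≤ g x + h y := by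
  unfold GoodPair at h
  push Not at h
  obtain ⟨hκ, hμ, h1, h2⟩ := h
  have hX : Cardinal.mk κ.out = κ := Cardinal.mk_out κ
  have hY : Cardinal.mk μ.out = μ := Cardinal.mk_out μ
  have iX : Infinite κ.out := Cardinal.infinite_iff.2 (hX.symm ▸ hκ)
  have iY : Infinite μ.out := Cardinal.infinite_iff.2 (hY.symm ▸ hμ)
  by_cases hk : κ = ℵ₀
  · obtain ⟨Y0, n, hYi, hYc, hn⟩ := Pool.Agent.Helper5_DF7.Bad.bad_b μ hμ (h1 hk)
    have e1 : Nonempty (ULift.{u} ℕ ↪ κ.out) := by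
      rw [← Cardinal.le_def, hX]
      simpa using hκ
    have e2 : Nonempty (Y0 ↪ μ.out) := by
      rw [← Cardinal.le_def, hY]
      exact hYc
    obtain ⟨n', hn'⟩ := bad_transport e1.some e2.some n hn
    exact ⟨κ.out, μ.out, n', iX, iY, hX, hY, hn'⟩
  by_cases hm : μ = ℵ₀
  · obtain ⟨Y0, n, hYi, hYc, hn⟩ := Pool.Agent.Helper5_DF7.Bad.bad_b κ hκ (h2 hm)
    have e1 : Nonempty (ULift.{u} ℕ ↪ μ.out) := by
      rw [← Cardinal.le_def, hY]
      simpa using hμ
    have e2 : Nonempty (Y0 ↪ κ.out) := by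
      rw [← Cardinal.le_def, hX]
      exact hYc
    have hn2 : ¬ ∃ (g : Y0 → ℕ) (h : ULift.{u} ℕ → ℕ), ∀ x y, n y x ≤ g x + h y := by
      rintro ⟨g, h, hgh⟩
      exact hn ⟨h, g, fun x y => by rw [add_comm]; exact hgh y x⟩
    obtain ⟨n', hn'⟩ := bad_transport e2.some e1.some (fun x y => n y x) hn2
    exact ⟨κ.out, μ.out, n', iX, iY, hX, hY, hn'⟩
  · obtain ⟨Ω, n, hinf, hcard, hn⟩ := Pool.Agent.Helper5_DF7.Bad.bad_omega1.{u}
    have h3 : Cardinal.aleph 1 ≤ κ := by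
      rw [← Cardinal.succ_aleph0]
      exact Order.succ_le_of_lt (lt_of_le_of_ne hκ (Ne.symm hk))
    have h4 : Cardinal.aleph 1 ≤ μ := by
      rw [← Cardinal.succ_aleph0]
      exact Order.succ_le_of_lt (lt_of_le_of_ne hμ (Ne.symm hm))
    have e1 : Nonempty (Ω ↪ κ.out) := by
      rw [← Cardinal.le_def, hX, hcard]
      exact h3
    have e2 : Nonempty (Ω ↪ μ.out) := by
      rw [← Cardinal.le_def, hY, hcard]
      exact h4
    obtain ⟨n', hn'⟩ := bad_transport e1.some e2.some n hn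
    exact ⟨κ.out, μ.out, n', iX, iY, hX, hY, hn'⟩

theorem counterexample {K : (α : Type u) → [Lattice α] → Prop} (hK : PowerClosed K)
    (κ μ : Cardinal.{u}) (hbad : ¬ GoodPair κ μ)
    (hmod : ¬ ∀ (L : Type u) [Lattice L], K L → IsModularLattice L) :
    ∃ (L : Type u) (_ : Lattice L), K L ∧ (∀ x y : L, (Set.Icc x y).Finite) ∧
      Cardinal.mk L = max κ μ ∧ coinit L = κ ∧ cofin L = μ ∧ ¬ HasIntMap L := by
  push Not at hmod
  obtain ⟨M, iM, hM, hmod⟩ := hmod
  obtain ⟨p⟩ := exists_pent hmod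
  obtain ⟨X, Y, n, iX, iY, hX, hY, hn⟩ := bad_pair κ μ hbad
  refine ⟨LL p n, inferInstance, ?_, finite_Icc p n, ?_, ?_, ?_, fun h => hn (key p n h)⟩
  · exact hK (LL p n) M (X × Y × ℕ) hM (LL p n).subtype Subtype.val_injective
  · rw [mk_LL p n, hX, hY]
  · rw [coinit_LL p n, hX]
  · rw [cofin_LL p n, hY]

theorem locChainBdd_of_finite {P : Type*} [PartialOrder P] (h : ∀ x y : P, (Set.Icc x y).Finite) :
    LocChainBdd P := by
  intro x y _
  refine ⟨(h x y).toFinset.card, fun c hc _ => ?_⟩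
  rw [← Set.encard_coe_eq_coe_finsetCard, Set.Finite.coe_toFinset]
  exact Set.encard_le_encard hc

theorem classification {K : (α : Type u) → [Lattice α] → Prop} (hK : PowerClosed K)
    (κ μ : Cardinal.{u}) :
    (∀ (L : Type u) [Lattice L], K L → LocChainBdd L → coinit L = κ → cofin L = μ →
      HasIntMap L) ↔
    ((∀ (L : Type u) [Lattice L], K L → IsModularLattice L) ∨ GoodPair κ μ) := by
  constructor
  · intro h
    by_contra hbad
    rw [not_or] at hbad
    obtain ⟨L, iL, a1, a2, _, a4, a5, a6⟩ := counterexample hK κ μ hbad.2 hbad.1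
    exact a6 (h L a1 (locChainBdd_of_finite a2) a4 a5)
  · rintro (h | h) L iL hL hb hD hE
    · have := h L hL
      exact hasIntMap_of_modular hb
    · exact pos_cardinals L hb (by rw [hD, hE]; exact h)

theorem not_goodPair_aleph_one : ¬ GoodPair (Cardinal.aleph.{u} 1) (Cardinal.aleph.{u} 1) := by
  have h1 : ℵ₀ < Cardinal.aleph.{u} 1 := Cardinal.aleph0_lt_aleph_one
  rintro (h | h | ⟨h, _⟩ | ⟨h, _⟩)
  · exact absurd h (not_lt_of_gt h1)
  · exact absurd h (not_lt_of_gt h1)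
  · exact h1.ne' h
  · exact h1.ne' h

end Pool.Agent.SMZ
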