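import Pool.Agent.Helper93_SMZ.Core

/-!
# The counterexample lattices inside the powers of a nonmodular lattice
-/

namespace Pool.Agent.SMZ

open Cardinal

universe u

/-- A pentagon in a lattice. -/
structure Pent (M : Type*) [Lattice M] where
  o : M
  a : M
  c : M
  b : M
  t : M
  hac : a < c
  hab : a ⊔ b = t
  hcb : c ⊔ b = t
  hab' : a ⊓ b = o
  hcb' : c ⊓ b = o

theorem exists_pent {M : Type*} [Lattice M] (h : ¬ IsModularLattice M) : Nonempty (Pent M) := by
  have : ∃ x z : M, ∃ y : M, x ≤ z ∧ ¬ ((x ⊔ y) ⊓ z ≤ x ⊔ y ⊓ z) := by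
    by_contra hcon
    push Not at hcon
    exact h ⟨fun {x} y {z} hxz => hcon x z y hxz⟩
  obtain ⟨x, z, y, hxz, hn⟩ := this
  have hle : x ⊔ y ⊓ z ≤ (x ⊔ y) ⊓ z := le_inf (sup_le_sup_left inf_le_left _)
    (sup_le hxz inf_le_right)
  refine ⟨⟨y ⊓ z, x ⊔ y ⊓ z, (x ⊔ y) ⊓ z, y, x ⊔ y, lt_of_le_not_ge hle hn, ?_, ?_, ?_, ?_⟩⟩
  · rw [sup_assoc, sup_comm (y ⊓ z) y, sup_inf_self]
  · apply le_antisymm
    · exact sup_le inf_le_left le_sup_right
    · exact sup_le ((le_inf le_sup_left hxz).trans le_sup_left) le_sup_right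
  · apply le_antisymm
    · exact le_inf inf_le_right (inf_le_left.trans (sup_le hxz inf_le_right))
    · exact le_inf le_sup_right inf_le_left
  · apply le_antisymm
    · exact le_inf inf_le_right (inf_le_left.trans inf_le_right)
    · exact le_inf (le_inf (inf_le_left.trans le_sup_right) inf_le_right) inf_le_left

namespace Pent

variable {M : Type*} [Lattice M] (p : Pent M)

theorem oa : p.o ≤ p.a := by rw [← p.hab']; exact inf_le_left
theorem oc : p.o ≤ p.c := p.oa.trans p.hac.le
theorem ob : p.o ≤ p.b := by rw [← p.hab']; exact inf_le_right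
theorem at' : p.a ≤ p.t := by rw [← p.hab]; exact le_sup_left
theorem ct : p.c ≤ p.t := by rw [← p.hcb]; exact le_sup_left
theorem bt : p.b ≤ p.t := by rw [← p.hab]; exact le_sup_right
theorem ot : p.o ≤ p.t := p.ob.trans p.bt

theorem not_b_le_o : ¬ p.b ≤ p.o := by
  intro h
  have h1 : p.b ≤ p.a := h.trans p.oa
  have h2 : p.t = p.a := by rw [← p.hab]; exact sup_eq_left.2 h1
  exact absurd (p.ct.trans h2.le) (not_le_of_gt p.hac)

theorem not_t_le_b : ¬ p.t ≤ p.b := by
  intro h
  have h1 : p.c ≤ p.b := p.ct.trans h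
  have h2 : p.c = p.o := by rw [← p.hcb']; exact (inf_eq_left.2 h1).symm
  exact absurd (h2.le.trans p.oa) (not_le_of_gt p.hac)

/-- The admissible values at a coordinate. -/
inductive V (P Q J : Prop) : M → Prop
  | b : ¬ P → ¬ Q → V P Q J p.b
  | o : P → ¬ Q → V P Q J p.o
  | t : ¬ P → Q → V P Q J p.t
  | a : P → Q → V P Q J p.a
  | c : P → Q → J → V P Q J p.c

theorem V.sup {P Q P' Q' J : Prop} {v w : M} (hv : p.V P Q J v) (hw : p.V P' Q' J w) :
    p.V (P ∧ P') (Q ∨ Q') J (v ⊔ w) := by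
  have eoa := sup_eq_right.2 p.oa
  have eoa' := sup_eq_left.2 p.oa
  have eoc := sup_eq_right.2 p.oc
  have eoc' := sup_eq_left.2 p.oc
  have eob := sup_eq_right.2 p.ob
  have eob' := sup_eq_left.2 p.ob
  have eat := sup_eq_right.2 p.at'
  have eat' := sup_eq_left.2 p.at'
  have ect := sup_eq_right.2 p.ct
  have ect' := sup_eq_left.2 p.ct
  have ebt := sup_eq_right.2 p.bt
  have ebt' := sup_eq_left.2 p.bt
  have eot := sup_eq_right.2 p.ot
  have eot' := sup_eq_left.2 p.ot
  have eac := sup_eq_right.2 p.hac.le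
  have eac' := sup_eq_left.2 p.hac.le
  have hab := p.hab
  have hcb := p.hcb
  have hba : p.b ⊔ p.a = p.t := by rw [sup_comm]; exact p.hab
  have hbc : p.b ⊔ p.c = p.t := by rw [sup_comm]; exact p.hcb
  cases hv <;> cases hw <;>
    simp only [eoa, eoa', eoc, eoc', eob, eob', eat, eat', ect, ect', ebt, ebt', eot, eot', eac,
      eac', hab, hcb, hba, hbc, sup_idem] <;>
    first
    | exact V.b (by tauto) (by tauto)
    | exact V.o (by tauto) (by tauto)
    | exact V.t (by tauto) (by tauto)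
    | exact V.a (by tauto) (by tauto)
    | exact V.c (by tauto) (by tauto) (by tauto)

theorem V.inf {P Q P' Q' J : Prop} {v w : M} (hv : p.V P Q J v) (hw : p.V P' Q' J w) :
    p.V (P ∨ P') (Q ∧ Q') J (v ⊓ w) := by
  have eoa := inf_eq_left.2 p.oa
  have eoa' := inf_eq_right.2 p.oa
  have eoc := inf_eq_left.2 p.oc
  have eoc' := inf_eq_right.2 p.oc
  have eob := inf_eq_left.2 p.ob
  have eob' := inf_eq_right.2 p.ob
  have eat := inf_eq_left.2 p.at'
  have eat' := inf_eq_right.2 p.at'
  have ect := inf_eq_left.2 p.ct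
  have ect' := inf_eq_right.2 p.ct
  have ebt := inf_eq_left.2 p.bt
  have ebt' := inf_eq_right.2 p.bt
  have eot := inf_eq_left.2 p.ot
  have eot' := inf_eq_right.2 p.ot
  have eac := inf_eq_left.2 p.hac.le
  have eac' := inf_eq_right.2 p.hac.le
  have hab := p.hab'
  have hcb := p.hcb'
  have hba : p.b ⊓ p.a = p.o := by rw [inf_comm]; exact p.hab'
  have hbc : p.b ⊓ p.c = p.o := by rw [inf_comm]; exact p.hcb'
  cases hv <;> cases hw <;>
    simp only [eoa, eoa', eoc, eoc', eob, eob', eat, eat', ect, ect', ebt, ebt', eot, eot', eac,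
      eac', hab, hcb, hba, hbc, inf_idem] <;>
    first
    | exact V.b (by tauto) (by tauto)
    | exact V.o (by tauto) (by tauto)
    | exact V.t (by tauto) (by tauto)
    | exact V.a (by tauto) (by tauto)
    | exact V.c (by tauto) (by tauto) (by tauto)

end Pent

open Pent

variable {M : Type u} [Lattice M] (p : Pent M) {X Y : Type u} (n : X → Y → ℕ)

/-- The lattice: functions with finite supports `G`, `F` and admissible values. -/
def LL : Sublattice (X × Y × ℕ → M) where
  carrier := {z | ∃ (G : Finset X) (F : Finset Y), ∀ x y j,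
    p.V (x ∈ G) (y ∈ F) (j < n x y) (z (x, y, j))}
  supClosed' := by
    classical
    rintro z ⟨G, F, hz⟩ w ⟨G', F', hw⟩
    refine ⟨G ∩ G', F ∪ F', fun x y j => ?_⟩
    rw [Finset.mem_inter, Finset.mem_union]
    exact V.sup p (hz x y j) (hw x y j)
  infClosed' := by
    classical
    rintro z ⟨G, F, hz⟩ w ⟨G', F', hw⟩
    refine ⟨G ∪ G', F ∩ F', fun x y j => ?_⟩
    rw [Finset.mem_inter, Finset.mem_union]
    exact V.inf p (hz x y j) (hw x y j)

open Classical in
/-- The element with data `G`, `F`, `T`. -/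
noncomputable def valf (G : Finset X) (F : Finset Y) (T : Finset (X × Y × ℕ)) : X × Y × ℕ → M :=
  fun q => if q.1 ∈ G then (if q.2.1 ∈ F then (if q ∈ T then p.c else p.a) else p.o)
    else (if q.2.1 ∈ F then p.t else p.b)

theorem valf_mem (G : Finset X) (F : Finset Y) (T : Finset (X × Y × ℕ))
    (hT : ∀ q ∈ T, q.2.2 < n q.1 q.2.1) : valf p G F T ∈ LL p n := by
  refine ⟨G, F, fun x y j => ?_⟩
  unfold valf
  by_cases hx : x ∈ G <;> by_cases hy : y ∈ F <;> by_cases hq : (x, y, j) ∈ T <;>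
    simp only [hx, hy, hq, if_true, if_false]
  · exact V.c trivial trivial (hT _ hq)
  · exact V.a trivial trivial
  · exact V.o trivial not_false
  · exact V.o trivial not_false
  · exact V.t not_false trivial
  · exact V.t not_false trivial
  · exact V.b not_false not_false
  · exact V.b not_false not_false

theorem Pent.V.eq_b {P Q J : Prop} {v : M} (h : p.V P Q J v) (hP : ¬ P) (hQ : ¬ Q) : v = p.b := by
  cases h <;> first | rfl | contradiction

theorem Pent.V.eq_o {P Q J : Prop} {v : M} (h : p.V P Q J v) (hP : P) (hQ : ¬ Q) : v = p.o := by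
  cases h <;> first | rfl | contradiction

theorem Pent.V.eq_t {P Q J : Prop} {v : M} (h : p.V P Q J v) (hP : ¬ P) (hQ : Q) : v = p.t := by
  cases h <;> first | rfl | contradiction

theorem valf_mono' {G G' : Finset X} {F F' : Finset Y} {T T' : Finset (X × Y × ℕ)}
    (hG : G' ⊆ G) (hF : F ⊆ F') (hT : ∀ q ∈ T, q.1 ∈ G' → q ∈ T') :
    valf p G F T ≤ valf p G' F' T' := by
  intro q
  unfold valf
  have h1 := @hG q.1
  have h2 := @hF q.2.1
  have h3 := hT q
  have := p.oa
  have := p.oc
  have := p.ob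
  have := p.at'
  have := p.ct
  have := p.bt
  have := p.ot
  have := p.hac.le
  by_cases a1 : q.1 ∈ G <;> by_cases a2 : q.1 ∈ G' <;> by_cases a3 : q.2.1 ∈ F <;>
    by_cases a4 : q.2.1 ∈ F' <;> by_cases a5 : q ∈ T <;> by_cases a6 : q ∈ T' <;>
    simp only [a1, a2, a3, a4, a5, a6, if_true, if_false, le_refl] <;>
    first | assumption | (exfalso; tauto)

theorem valf_mono {G G' : Finset X} {F F' : Finset Y} {T T' : Finset (X × Y × ℕ)}
    (hG : G' ⊆ G) (hF : F ⊆ F') (hT : T ⊆ T') : valf p G F T ≤ valf p G' F' T' :=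
  valf_mono' p hG hF (fun _ hq _ => hT hq)

/-- The finite box of possible positions of the value `c`. -/
def box (G : Finset X) (F : Finset Y) : Finset (X × Y × ℕ) :=
  G ×ˢ (F ×ˢ Finset.range (G.sup fun x => F.sup fun y => n x y))

theorem mem_box {G : Finset X} {F : Finset Y} {x : X} {y : Y} {j : ℕ} (hx : x ∈ G) (hy : y ∈ F)
    (hj : j < n x y) : (x, y, j) ∈ box n G F := by
  unfold box
  rw [Finset.mem_product, Finset.mem_product, Finset.mem_range]
  refine ⟨hx, hy, lt_of_lt_of_le hj ?_⟩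
  exact (Finset.le_sup (f := fun y => n x y) hy).trans
    (Finset.le_sup (f := fun x => F.sup fun y => n x y) hx)

theorem box_mono {G G' : Finset X} {F F' : Finset Y} (hG : G ⊆ G') (hF : F ⊆ F') :
    box n G F ⊆ box n G' F' := by
  unfold box
  refine Finset.product_subset_product hG (Finset.product_subset_product hF ?_)
  refine Finset.range_subset_range.2 ?_
  refine (Finset.sup_mono hG).trans ?_
  exact Finset.sup_mono_fun (fun x _ => Finset.sup_mono hF)

theorem eq_valf {G : Finset X} {F : Finset Y} {z : X × Y × ℕ → M}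
    (hz : ∀ x y j, p.V (x ∈ G) (y ∈ F) (j < n x y) (z (x, y, j))) :
    ∃ T ⊆ box n G F, z = valf p G F T := by
  classical
  refine ⟨(box n G F).filter (fun q => z q = p.c), Finset.filter_subset _ _, ?_⟩
  funext ⟨x, y, j⟩
  have h := hz x y j
  unfold valf
  simp only [Finset.mem_filter]
  generalize hv : z (x, y, j) = v at h ⊢
  cases h with
  | b h1 h2 => simp [h1, h2]
  | o h1 h2 => simp [h1, h2]
  | t h1 h2 => simp [h1, h2]
  | a h1 h2 => simp [h1, h2, p.hac.ne]
  | c h1 h2 h3 => simp [h1, h2, mem_box n h1 h2 h3]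

theorem finite_Icc [Infinite X] [Infinite Y] (z w : LL p n) : (Set.Icc z w).Finite := by
  classical
  obtain ⟨G, F, hz⟩ := z.2
  obtain ⟨G', F', hw⟩ := w.2
  let S : Finset (X × Y × ℕ → M) := (G.powerset ×ˢ (F'.powerset ×ˢ (box n G F').powerset)).image
    (fun t => valf p t.1 t.2.1 t.2.2)
  refine Set.Finite.of_finite_image (f := Subtype.val) (Set.Finite.subset S.finite_toSet ?_)
    Subtype.val_injective.injOn
  rintro _ ⟨u, ⟨hzu, huw⟩, rfl⟩
  obtain ⟨Gu, Fu, hu⟩ := u.2
  have hG : Gu ⊆ G := by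
    intro x hx
    by_contra hx'
    obtain ⟨y, hy⟩ := Infinite.exists_notMem_finset (F ∪ Fu)
    rw [Finset.mem_union, not_or] at hy
    have h1 := (hz x y 0).eq_b p hx' hy.1
    have h2 := (hu x y 0).eq_o p hx hy.2
    have h3 : (z : X × Y × ℕ → M) (x, y, 0) ≤ (u : X × Y × ℕ → M) (x, y, 0) := hzu (x, y, 0)
    rw [h1, h2] at h3
    exact p.not_b_le_o h3
  have hF : Fu ⊆ F' := by
    intro y hy
    by_contra hy'
    obtain ⟨x, hx⟩ := Infinite.exists_notMem_finset (Gu ∪ G')
    rw [Finset.mem_union, not_or] at hx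
    have h1 := (hu x y 0).eq_t p hx.1 hy
    have h2 := (hw x y 0).eq_b p hx.2 hy'
    have h3 : (u : X × Y × ℕ → M) (x, y, 0) ≤ (w : X × Y × ℕ → M) (x, y, 0) := huw (x, y, 0)
    rw [h1, h2] at h3
    exact p.not_t_le_b h3
  obtain ⟨T, hT, hu'⟩ := eq_valf p n hu
  refine Finset.mem_coe.2 (Finset.mem_image.2 ⟨(Gu, Fu, T), ?_, hu'.symm⟩)
  rw [Finset.mem_product, Finset.mem_product, Finset.mem_powerset, Finset.mem_powerset,
    Finset.mem_powerset]
  exact ⟨hG, hF, hT.trans (box_mono n hG hF)⟩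

/-- The lower elements. -/
noncomputable def lowE (G : Finset X) : LL p n := ⟨valf p G ∅ ∅, valf_mem p n G ∅ ∅ (by simp)⟩

/-- The upper elements. -/
noncomputable def upE (F : Finset Y) : LL p n := ⟨valf p ∅ F ∅, valf_mem p n ∅ F ∅ (by simp)⟩

theorem exists_lowE_le (z : LL p n) : ∃ G, lowE p n G ≤ z := by
  obtain ⟨G, F, hz⟩ := z.2
  obtain ⟨T, _, hT⟩ := eq_valf p n hz
  refine ⟨G, ?_⟩
  show valf p G ∅ ∅ ≤ (z : X × Y × ℕ → M)
  rw [hT]
  exact valf_mono p subset_rfl (Finset.empty_subset _) (Finset.empty_subset _)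

theorem exists_le_upE (z : LL p n) : ∃ F, z ≤ upE p n F := by
  classical
  obtain ⟨G, F, hz⟩ := z.2
  obtain ⟨T, _, hT⟩ := eq_valf p n hz
  refine ⟨F, ?_⟩
  show (z : X × Y × ℕ → M) ≤ valf p ∅ F ∅
  rw [hT]
  refine le_trans ?_ (?_ : valf p ∅ F T ≤ _)
  · exact valf_mono p (Finset.empty_subset _) subset_rfl subset_rfl
  · intro q
    unfold valf
    simp

/-- The long chain over `x`, `y` (inside the fibre over `G ∋ x`, `F ∋ y`). -/
noncomputable def chE (G : Finset X) (F : Finset Y) (x : X) (y : Y) (i : ℕ) :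
    X × Y × ℕ → M := by
  classical
  exact valf p G F ((Finset.range i).image (fun j => (x, y, j)))

theorem chE_mem (G : Finset X) (F : Finset Y) (x : X) (y : Y) (i : ℕ) (hi : i ≤ n x y) :
    chE p G F x y i ∈ LL p n := by
  classical
  refine valf_mem p n _ _ _ ?_
  intro q hq
  obtain ⟨j, hj, rfl⟩ := Finset.mem_image.1 hq
  exact lt_of_lt_of_le (Finset.mem_range.1 hj) hi

theorem chE_lt {G : Finset X} {F : Finset Y} {x : X} {y : Y} (hx : x ∈ G) (hy : y ∈ F) (i : ℕ) :
    chE p G F x y i < chE p G F x y (i + 1) := by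
  classical
  refine lt_of_le_of_ne ?_ ?_
  · refine valf_mono p subset_rfl subset_rfl (Finset.image_subset_image ?_)
    exact Finset.range_subset_range.2 (Nat.le_succ i)
  · intro h
    have h1 := congrFun h (x, y, i)
    simp only [chE, valf, hx, hy, if_true, Finset.mem_image, Finset.mem_range, Prod.mk.injEq,
      true_and, exists_eq_right, lt_self_iff_false, if_false, Nat.lt_succ_self] at h1
    exact p.hac.ne h1

theorem le_chE {G : Finset X} {F : Finset Y} (x : X) (y : Y) (i : ℕ) :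
    valf p G ∅ ∅ ≤ chE p G F x y i :=
  valf_mono p subset_rfl (Finset.empty_subset _) (Finset.empty_subset _)

/-- A strictly monotone map makes `n` bounded by a sum. -/
theorem key (h : HasIntMap (LL p n)) : ∃ (g : X → ℕ) (h : Y → ℕ), ∀ x y, n x y ≤ g x + h y := by
  classical
  obtain ⟨f, hf⟩ := h
  refine ⟨fun x => (f (lowE p n {x})).natAbs, fun y => (f (upE p n {y})).natAbs, fun x y => ?_⟩
  have h1 : ∀ i (hi : i ≤ n x y), f (lowE p n {x}) + i ≤
      f ⟨chE p {x} {y} x y i, chE_mem p n _ _ _ _ _ hi⟩ := by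
    intro i
    induction i with
    | zero =>
      intro hi
      simp only [Nat.cast_zero, add_zero]
      exact hf.monotone (le_chE p x y 0)
    | succ i ih =>
      intro hi
      have h2 := ih (by omega)
      have h3 : (⟨chE p {x} {y} x y i, chE_mem p n _ _ _ _ _ (by omega)⟩ : LL p n) <
          ⟨chE p {x} {y} x y (i + 1), chE_mem p n _ _ _ _ _ hi⟩ :=
        chE_lt p (Finset.mem_singleton_self x) (Finset.mem_singleton_self y) i
      have h4 := hf h3
      push_cast
      linarith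
  have h2 := h1 (n x y) le_rfl
  have h3 : (⟨chE p {x} {y} x y (n x y), chE_mem p n _ _ _ _ _ le_rfl⟩ : LL p n) ≤
      upE p n {y} := by
    show chE p {x} {y} x y (n x y) ≤ valf p ∅ {y} ∅
    intro q
    simp only [chE, valf, Finset.notMem_empty, if_false]
    by_cases h5 : q.2.1 ∈ ({y} : Finset Y) <;> by_cases h6 : q.1 ∈ ({x} : Finset X) <;>
      simp only [h5, h6, if_true, if_false, le_refl]
    · split_ifs
      · exact p.ct
      · exact p.at'
    · exact p.ob
  have h4 := hf.monotone h3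
  show n x y ≤ (f (lowE p n {x})).natAbs + (f (upE p n {y})).natAbs
  omega

end Pool.Agent.SMZ
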